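import Pool.Agent.Q151.Ind.Lower
import Pool.Agent.Q151.Ind.Upper

set_option autoImplicit false

/-!
# `ind_*(ℓ) = 1/e` for every `ℓ ≥ 1`

Problem MP_eb6a62_co asks whether `ind_*(ℓ) ≤ 2/e²` for every `ℓ ≥ 2`.  The answer is no: in fact
`ind_*(ℓ) = 1/e > 2/e²` for every `ℓ ≥ 1`.
-/

namespace Pool.Agent.Results.MP_eb6a62_co.OneOverE

open Finset Filter Topology

/-- The number of members `A ∈ 𝒜` with `A ⊆ X`. -/
def hits {B : Type} [DecidableEq B] (𝒜 : Finset (Finset B)) (X : Finset B) : ℕ :=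
  (𝒜.filter (fun A => A ⊆ X)).card

/-- The probability that `#{A ∈ 𝒜 : A ⊆ B_p} = l`, where `B_p` is the random subset of `B`
obtained by keeping each element independently with probability `p`: the outcome `X` has the
probability `p ^ |X| (1 - p) ^ (|B| - |X|)`. -/
noncomputable def prob {B : Type} [Fintype B] [DecidableEq B] (𝒜 : Finset (Finset B)) (p : ℝ)
    (l : ℕ) : ℝ :=
  ∑ X : Finset B, if hits 𝒜 X = l then p ^ X.card * (1 - p) ^ (Fintype.card B - X.card) else 0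

/-- `ind_*(l, p)`: the supremum of this probability over all finite sets `B` and all families `𝒜`
of non-empty subsets of `B`. -/
noncomputable def indStar (l : ℕ) (p : ℝ) : ℝ :=
  sSup {x : ℝ | ∃ (B : Type) (_ : Fintype B) (_ : DecidableEq B) (𝒜 : Finset (Finset B)),
    (∀ A ∈ 𝒜, A.Nonempty) ∧ x = prob 𝒜 p l}

lemma prob_eq {B : Type} [Fintype B] [DecidableEq B] (𝒜 : Finset (Finset B)) (p : ℝ) (l : ℕ) :
    prob 𝒜 p l = Q151.Ind.prob 𝒜 p l := rfl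

lemma bdd (l : ℕ) {p : ℝ} (hp0 : 0 ≤ p) (hp1 : p ≤ 1) :
    BddAbove {x : ℝ | ∃ (B : Type) (_ : Fintype B) (_ : DecidableEq B) (𝒜 : Finset (Finset B)),
      (∀ A ∈ 𝒜, A.Nonempty) ∧ x = prob 𝒜 p l} := by
  refine ⟨1, ?_⟩
  rintro x ⟨B, _, _, 𝒜, _, rfl⟩
  exact Q151.Ind.prob_le_one hp0 hp1 𝒜 l

lemma indStar_le {l : ℕ} (hl : 1 ≤ l) {p : ℝ} (hp0 : 0 ≤ p) (hp1 : p < 1) :
    indStar l p ≤ Real.exp (-1) / (1 - p) := by
  apply csSup_le
  · exact ⟨_, Fin 0, inferInstance, inferInstance, ∅, by simp, rfl⟩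
  · rintro x ⟨B, _, _, 𝒜, hne, rfl⟩
    exact Q151.Ind.prob_le 𝒜 hne hp0 hp1 hl

lemma tendsto_indStar {l : ℕ} (hl : 1 ≤ l) :
    Tendsto (indStar l) (𝓝[>] 0) (𝓝 (Real.exp (-1))) := by
  rw [tendsto_order]
  constructor
  · intro c hc
    obtain ⟨p0, hp0, hp02, h⟩ := Q151.Ind.lower (l - 1) c hc
    have h3 : Set.Ioc (0 : ℝ) p0 ∈ 𝓝[>] (0 : ℝ) := Ioc_mem_nhdsGT hp0
    filter_upwards [h3] with p hp
    obtain ⟨B, i1, i2, 𝒜, hne, hc'⟩ := h p hp.1 hp.2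
    rw [show l - 1 + 1 = l by omega] at hc'
    refine lt_of_lt_of_le hc' ?_
    apply le_csSup (bdd l hp.1.le (by linarith [hp.2]))
    exact ⟨B, i1, i2, 𝒜, hne, rfl⟩
  · intro c hc
    have hcont : ContinuousAt (fun p : ℝ => Real.exp (-1) / (1 - p)) 0 := by
      apply ContinuousAt.div
      · fun_prop
      · fun_prop
      · norm_num
    have h0 : (fun p : ℝ => Real.exp (-1) / (1 - p)) 0 < c := by
      simpa using hc
    have h1 : ∀ᶠ p in 𝓝[>] (0 : ℝ), Real.exp (-1) / (1 - p) < c :=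
      (hcont.eventually (gt_mem_nhds h0)).filter_mono nhdsWithin_le_nhds
    have h3 : Set.Ioo (0 : ℝ) 1 ∈ 𝓝[>] (0 : ℝ) := Ioo_mem_nhdsGT (by norm_num)
    filter_upwards [h1, h3] with p hp hp'
    exact lt_of_le_of_lt (indStar_le hl hp'.1.le hp'.2) hp

/-- For every `l ≥ 1` the limit `ind_*(l)` of `ind_*(l, p)` as `p → 0+` equals `1/e`; in
particular for every `l ≥ 2` the number `ind_*(l)` is larger than `2/e²`. -/
theorem result :
    (∀ l : ℕ, 1 ≤ l → Tendsto (fun p => indStar l p) (𝓝[>] 0) (𝓝 (1 / Real.exp 1))) ∧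
    (∀ l : ℕ, 2 ≤ l → ∀ L : ℝ, Tendsto (fun p => indStar l p) (𝓝[>] 0) (𝓝 L) →
      2 / Real.exp 1 ^ 2 < L) := by
  have h1 : ∀ l : ℕ, 1 ≤ l → Tendsto (fun p => indStar l p) (𝓝[>] 0) (𝓝 (1 / Real.exp 1)) := by
    intro l hl
    have := tendsto_indStar hl
    rwa [Real.exp_neg, ← one_div] at this
  refine ⟨h1, ?_⟩
  intro l hl L hL
  have e : L = 1 / Real.exp 1 := tendsto_nhds_unique hL (h1 l (by omega))
  rw [e]
  have h2 : (2 : ℝ) < Real.exp 1 := by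
    have := Real.exp_one_gt_d9
    linarith
  have h3 : (0 : ℝ) < Real.exp 1 := Real.exp_pos 1
  rw [div_lt_div_iff₀ (by positivity) h3]
  nlinarith

end Pool.Agent.Results.MP_eb6a62_co.OneOverE
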